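import Pool.Agent.AT2.Stmts
import Pool.Agent.Helper50_PP.Ffa
import Pool.Agent.Helper20_PP.Nls
import Pool.Agent.Helper20_PP.Ibr
import Pool.Agent.Helper9_PP.Add
import Pool.Agent.Helper51_AWC.Basic
import Pool.Agent.Helper62_AT3.LCJ

/-!
# Squad AT2, row TEX: the subgroups of the normaliser of `U` which do not contain `U`
-/

open scoped BigOperators

noncomputable section

namespace Pool.Agent.PP.T2.H86

open Pool.Agent.Helper51_AWC Pool.Agent.Helper79_WRA Pool.Agent.PP Pool.Agent.PP.KF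
open Pool.Agent.PP.K9 Pool.Agent.PP.K9.H97 Pool.Agent.PP.H75 Pool.Agent.PP.T3

attribute [local instance] Ideal.Quotient.field

theorem tex_aux (hPWU : PwuStmt) (hQT1 : Qt1Stmt) (hQT2 : Qt2Stmt) (hLCJ : LcjStmt)
    (ℓ : ℕ) [hℓ : Fact ℓ.Prime] (M : Ideal (integralClosure ℤ ℂ)) [M.IsMaximal]
    (hM : (ℓ : integralClosure ℤ ℂ) ∈ M) (G : Type) [Group G] (V : Subgroup G) (X : Type) [Group X]
    [Finite X] (f : X → FF M) (W : Subgroup X) (γ : X → FF M) (hL : Ld ℓ f W γ) (a : ℕ)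
    (ha : 0 < a) (hexp : Monoid.exponent W = ℓ ^ a)
    (hU : ∀ k : X, conjS k (Uw (ℓ ^ (a - 1)) W) = Uw (ℓ ^ (a - 1)) W)
    (τ : V ≃* W) (n i : ℕ) (hn : Nat.card X ≤ n) (hi : ix W γ ≤ i) (hIh : Ih M ℓ a n V i)
    (Q : Subgroup X) (hQ : IsPGroup ℓ Q) (hQb : Q ≠ ⊥)
    (hno : ¬ (Uw (ℓ ^ (a - 1)) W ≤ Q ∧
      Q ≤ Subgroup.centralizer (Uw (ℓ ^ (a - 1)) W : Set X))) : YQ ℓ f Q = 0 := by
  have hF : GoodF ℓ (FF M) := H50.fld ℓ Fact.out M hM
  have hfid : IsIdem (fun t : Subgroup.normalizer (Q : Set X) => br Q f t) :=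
    (H20.brm ℓ (FF M) hF X Q (Subgroup.normalizer (Q : Set X)) hQ
      (Subgroup.centralizer_le_normalizer _) le_rfl).2.2 f hL.blk.1
  have hk : (QuotientGroup.mk' (Q.subgroupOf (Subgroup.normalizer (Q : Set X)))).ker =
    Q.subgroupOf (Subgroup.normalizer (Q : Set X)) := QuotientGroup.ker_mk' _
  have hs := QuotientGroup.mk'_surjective (Q.subgroupOf (Subgroup.normalizer (Q : Set X)))
  unfold YQ
  refine H9.addStmt ℓ (FF M) hF _ ⊤ inferInstance _ (push_isIdem hs hfid) ?_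
  intro f₁ hf₁ hff₁
  obtain ⟨k, hQk, hTp⟩ := hQT1 ℓ M hM X f W γ hL Q hQ _ _ hs hk f₁ hf₁ hff₁
  obtain ⟨hLk, hixk⟩ := hLCJ ℓ (FF M) hF X f W γ hL k
  obtain ⟨γ', hL', hi'⟩ := hQT2 ℓ M hM X f (conjS k W) (cj k γ) hLk Q hQk _ _ hs hk f₁ hf₁ hff₁ hTp
  -- `U` is not contained in `Q`
  obtain ⟨-, hUW, -, -, hUc, -, -, -⟩ := hPWU X (ℓ ^ (a - 1)) W hL.ab
  have hUk : Uw (ℓ ^ (a - 1)) (conjS k W) = Uw (ℓ ^ (a - 1)) W := by rw [hUc k, hU k]
  have hUWk : Uw (ℓ ^ (a - 1)) W ≤ conjS k W := by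
    rw [← hUk]
    exact (hPWU X (ℓ ^ (a - 1)) (conjS k W) hLk.ab).2.1
  have hUQ : ¬ Uw (ℓ ^ (a - 1)) W ≤ Q := by
    intro h
    refine hno ⟨h, ?_⟩
    intro q hq
    rw [Subgroup.mem_centralizer_iff]
    intro u hu
    exact hLk.ab u (hUWk hu) q (hQk hq)
  -- the conjugate of `W` normalises `Q`
  have hWN : conjS k W ≤ Subgroup.normalizer (Q : Set X) := by
    intro w hw
    rw [Subgroup.mem_normalizer_iff]
    intro q
    constructor
    · intro hq
      have h1 : w * q * w⁻¹ = q := by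
        rw [hLk.ab w hw q (hQk hq), mul_assoc, mul_inv_cancel, mul_one]
      show w * q * w⁻¹ ∈ Q
      rw [h1]
      exact hq
    · intro hq
      have hq' : w * q * w⁻¹ ∈ Q := hq
      have h2 : q = w * q * w⁻¹ := by
        have h3 := hLk.ab w⁻¹ (inv_mem hw) _ (hQk hq')
        have h4 : w⁻¹ * (w * q * w⁻¹) = q * w⁻¹ := by group
        rw [h4] at h3
        have h5 : q * w⁻¹ * w = w * q * w⁻¹ * w⁻¹ * w := by rw [h3]
        have h6 : q * w⁻¹ * w = q := by group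
        have h7 : w * q * w⁻¹ * w⁻¹ * w = w * q * w⁻¹ := by group
        rw [h6, h7] at h5
        exact h5
      show q ∈ Q
      rw [h2]
      exact hq'
  -- the group `conjS k W` in the normaliser
  obtain ⟨W₁, hW₁⟩ : ∃ W₁, W₁ = (conjS k W).subgroupOf (Subgroup.normalizer (Q : Set X)) :=
    ⟨_, rfl⟩
  have τ1 : W ≃* conjS k W := conjSEquiv k W
  have τ2 : conjS k W ≃* W₁ := by
    rw [hW₁]
    exact (Subgroup.subgroupOfEquivOfLe hWN).symm
  have hW₁ab : ∀ a ∈ W₁, ∀ b ∈ W₁, a * b = b * a := by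
    intro a ha b hb
    rw [hW₁, Subgroup.mem_subgroupOf] at ha hb
    exact Subtype.ext (hLk.ab a ha b hb)
  have hexp1 : Monoid.exponent W₁ = ℓ ^ a := by
    rw [← hexp, Monoid.exponent_eq_of_mulEquiv (τ1.trans τ2)]
  obtain ⟨-, -, -, -, -, -, -, h8⟩ := hPWU (Subgroup.normalizer (Q : Set X)) (ℓ ^ (a - 1)) W₁ hW₁ab
  obtain ⟨-, -, -, -, -, -, h7, -⟩ := hPWU X (ℓ ^ (a - 1)) (conjS k W) hLk.ab
  have h9 := (h8 ℓ a ha hexp1 rfl).2 _
    (QuotientGroup.mk' (Q.subgroupOf (Subgroup.normalizer (Q : Set X))))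
  have hexp2 : Monoid.exponent (W₁.map
      (QuotientGroup.mk' (Q.subgroupOf (Subgroup.normalizer (Q : Set X))))) = ℓ ^ a := by
    rcases h9 with h | h
    · exact h
    · exfalso
      rw [hk, hW₁, h7 _ hWN, hUk] at h
      apply hUQ
      intro u hu
      have h10 : (⟨u, hWN (hUWk hu)⟩ : Subgroup.normalizer (Q : Set X)) ∈
          (Uw (ℓ ^ (a - 1)) W).subgroupOf (Subgroup.normalizer (Q : Set X)) := by
        rw [Subgroup.mem_subgroupOf]
        exact hu
      exact Subgroup.mem_subgroupOf.1 (h h10)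
  -- the surjection
  have hsur : ∃ π : V →* W₁.map
      (QuotientGroup.mk' (Q.subgroupOf (Subgroup.normalizer (Q : Set X)))),
      Function.Surjective π := by
    refine ⟨((QuotientGroup.mk' (Q.subgroupOf (Subgroup.normalizer (Q : Set X)))).subgroupMap
      W₁).comp (τ.trans (τ1.trans τ2)).toMonoidHom, ?_⟩
    rw [MonoidHom.coe_comp]
    exact (MonoidHom.subgroupMap_surjective _ _).comp (τ.trans (τ1.trans τ2)).surjective
  -- the order
  have hcard : Nat.card (Subgroup.normalizer (Q : Set X) ⧸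
      Q.subgroupOf (Subgroup.normalizer (Q : Set X))) < n := by
    have hQ1 : 1 < Nat.card Q := by
      rw [Subgroup.one_lt_card_iff_ne_bot]
      exact hQb
    have h1 :=
      (Q.subgroupOf (Subgroup.normalizer (Q : Set X))).card_eq_card_quotient_mul_card_subgroup
    have h2 : Nat.card (Q.subgroupOf (Subgroup.normalizer (Q : Set X))) = Nat.card Q :=
      Nat.card_congr (Subgroup.subgroupOfEquivOfLe Subgroup.le_normalizer).toEquiv
    have h3 : Nat.card (Subgroup.normalizer (Q : Set X)) ≤ n :=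
      (Subgroup.card_le_card_group _).trans hn
    have h4 : 0 < Nat.card (Subgroup.normalizer (Q : Set X) ⧸
        Q.subgroupOf (Subgroup.normalizer (Q : Set X))) := Nat.card_pos
    rw [h2] at h1
    nlinarith
  rw [← hW₁] at hL' hi'
  refine hIh _ hcard f₁ _ γ' hL' hexp2 hsur ?_
  exact hi'.trans (by rw [hixk]; exact hi)

theorem tex (hPWU : PwuStmt) (hQT1 : Qt1Stmt) (hQT2 : Qt2Stmt) (hLCJ : LcjStmt) : TexStmt := by
  intro ℓ hℓ M _ hM G _ _ e V γ hL a ha hexp U hU f hf hIh Q hQ hQb hno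
  obtain ⟨-, hUV, hNV, hCV, -, -, h7, -⟩ := hPWU G (ℓ ^ (a - 1)) V hL.ab
  have hVX : V ≤ Subgroup.normalizer (U : Set G) := by
    rw [hU]
    exact Subgroup.le_normalizer.trans hNV
  have hUX : Uw (ℓ ^ (a - 1)) (V.subgroupOf (Subgroup.normalizer (U : Set G))) =
      U.subgroupOf (Subgroup.normalizer (U : Set G)) := by
    rw [h7 _ hVX, hU]
  have τ : V ≃* V.subgroupOf (Subgroup.normalizer (U : Set G)) :=
    (Subgroup.subgroupOfEquivOfLe hVX).symm
  have hUn : (U.subgroupOf (Subgroup.normalizer (U : Set G))).Normal := inferInstance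
  refine tex_aux hPWU hQT1 hQT2 hLCJ ℓ M hM G V (Subgroup.normalizer (U : Set G))
    (fun t : Subgroup.normalizer (U : Set G) => f t)
    (V.subgroupOf (Subgroup.normalizer (U : Set G)))
    (fun t : Subgroup.normalizer (U : Set G) => γ t) hf.ld a ha ?_ ?_ τ (Nat.card G) (ix V γ)
    (Subgroup.card_le_card_group _) hf.ix.le hIh Q hQ hQb ?_
  · rw [← hexp, Monoid.exponent_eq_of_mulEquiv τ]
  · intro k
    rw [hUX]
    ext x
    rw [T3.H62.mem_conjS]
    constructor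
    · intro h
      have h1 := hUn.conj_mem _ h k
      have h2 : k * (k⁻¹ * x * k) * k⁻¹ = x := by group
      rwa [h2] at h1
    · intro h
      have h1 := hUn.conj_mem _ h k⁻¹
      rwa [inv_inv] at h1
  · rw [hUX]
    rintro ⟨h1, h2⟩
    refine hno ⟨h1, ?_⟩
    intro x hx
    rw [Subgroup.mem_subgroupOf, Subgroup.mem_centralizer_iff]
    intro u hu
    have h3 := Subgroup.mem_centralizer_iff.1 (h2 hx)
      ⟨u, Subgroup.le_normalizer hu⟩ (Subgroup.mem_subgroupOf.2 hu)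
    exact congrArg Subtype.val h3

end Pool.Agent.PP.T2.H86
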